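import Pool.Agent.V7H96.NarrowReg

set_option autoImplicit false

/-!
# Narrow progressions of regular points in arbitrary sets of prime quadruples of both shapes, and in
# every colouring of the almost prime quadruples

Let `H` be `{0, 2, 6, 8}` or `{0, 4, 6, 10}`. `R H r` is the set of the `n` for which all prime
factors of all `n + h` (`h ∈ H`) are larger than `n ^ (1 / r)`; it contains all `n` for which all
`n + h` are prime. `Al H M n₀ r` is the set of the `n ≡ n₀ (mod M)` in `R H r` for which all `n + h`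
have at most `r` prime factors. Let `0 < θ ≤ 1`.

* In every short interval `(X, X + Y]`, `Y ≥ X ^ θ`, there are at least `κ Y / log ^ 4 X` elements of
  `Al H M n₀ r`.
* Let `A` be an ARBITRARY subset of `R H r`, for example the set of all prime quadruples of this
  shape. For every `l`, all but `ε Y / log ^ 4 X` of the elements of `A` in `(X, X + Y]` are terms of
  an arithmetic progression of `l` elements of `A` with difference at most a fixed power of `log X`,
  ALL of whose terms are regular points of `A`: the elements of `A` in ALL intervals of length between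
  `log ^ 4 X / c` and `Y` around them have the right order, and constant density up to `δ` at all but
  `B` dyadic scales. The power of the logarithm does not depend on `δ`.
* In every colouring of `Al H M n₀ r` with `K` colours, also if the colouring depends on `X` and `Y`,
  there is a colour for which a positive proportion of the expected number of elements of
  `(X, X + Y]` are terms of such progressions, of `l` terms of this colour, all of them regular
  points of the colour class. For instance the colour of `n` can be the vector of the four numbers of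
  prime factors of the `n + h`.

The starting file `RegularQuadruples` has the first point with `M = 1` and the statement that most
elements of `A` are regular points. New are the progressions and the colourings.

`N`, `RightOrder`, `ConstantDensity`, `badScales` and `Irregular` are defined in
`Pool/Agent/TH977/PW/Hered.lean`, `Good` and `Bad` in `Pool/Agent/V7H96/NarrowReg.lean`.
-/

namespace Pool.Agent.Results.MP_092512_nt.NarrowRegularColouringsH96

open Finset Filter
open Pool.Agent.TH977.PW (N)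
open Pool.Agent.V7H96.NR (Good Bad)

/-- All prime factors of all `n + h`, `h ∈ H`, are larger than `n ^ (1 / r)`. -/
def R (H : Finset ℕ) (r : ℕ) : Set ℕ :=
  {n | ∀ h ∈ H, ∀ p : ℕ, p.Prime → p ∣ n + h → (n : ℝ) ^ (1 / (r : ℝ)) < (p : ℝ)}

/-- The `n ≡ n₀ (mod M)` in `R H r` for which all `n + h`, `h ∈ H`, have at most `r` prime
factors. -/
def Al (H : Finset ℕ) (M n₀ r : ℕ) : Set ℕ :=
  {n | n ∈ R H r ∧ n % M = n₀ % M ∧ ∀ h ∈ H, (n + h).primeFactorsList.length ≤ r}

/-- no local obstruction -/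
lemma adm (H : Finset ℕ) (hH : H = {0, 2, 6, 8} ∨ H = {0, 4, 6, 10}) (p : ℕ)
    (hp : p.Prime) : ∃ m : ℕ, ∀ h ∈ H, ¬ p ∣ m + h := by
  rcases hH with rfl | rfl
  · rcases lt_or_ge p 30 with h30 | h30
    · refine ⟨101, fun h hh hd => ?_⟩
      simp only [mem_insert, mem_singleton] at hh
      have := (Nat.prime_dvd_prime_iff_eq hp
        (by rcases hh with rfl | rfl | rfl | rfl <;> norm_num)).1 hd
      omega
    · refine ⟨5, fun h hh hd => ?_⟩
      simp only [mem_insert, mem_singleton] at hh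
      have := Nat.le_of_dvd (by omega) hd
      omega
  · rcases lt_or_ge p 30 with h30 | h30
    · refine ⟨37, fun h hh hd => ?_⟩
      simp only [mem_insert, mem_singleton] at hh
      have := (Nat.prime_dvd_prime_iff_eq hp
        (by rcases hh with rfl | rfl | rfl | rfl <;> norm_num)).1 hd
      omega
    · refine ⟨7, fun h hh hd => ?_⟩
      simp only [mem_insert, mem_singleton] at hh
      have := Nat.le_of_dvd (by omega) hd
      omega

/-- **Narrow progressions of regular points at prime quadruples of both shapes.** -/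
theorem result (H : Finset ℕ) (hH : H = {0, 2, 6, 8} ∨ H = {0, 4, 6, 10}) (M n₀ : ℕ) (hM : 0 < M)
    (hcop : ∀ h ∈ H, Nat.Coprime (n₀ + h) M) (θ : ℝ) (hθ : 0 < θ) (hθ1 : θ ≤ 1) :
    ∃ r₀ : ℕ, 2 ≤ r₀ ∧ ∀ r : ℕ, r₀ ≤ r →
      (∀ n : ℕ, (∀ h ∈ H, (n + h).Prime) → n ∈ R H r) ∧
      (∃ κ : ℝ, 0 < κ ∧ ∀ᶠ X : ℕ in atTop, ∀ Y : ℕ, (X : ℝ) ^ θ ≤ Y → Y ≤ X →
        κ * Y / Real.log X ^ 4 ≤ N (Al H M n₀ r) X (X + Y)) ∧
      (∀ l : ℕ, 2 ≤ l → ∀ ε : ℝ, 0 < ε → ∃ c : ℝ, 0 < c ∧ ∃ D : ℕ, ∀ δ : ℝ, 0 < δ → ∃ B : ℕ,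
        ∀ᶠ X : ℕ in atTop, ∀ Y : ℕ, (X : ℝ) ^ θ ≤ Y → 2 * Y ≤ X → ∀ A : Set ℕ, A ⊆ R H r →
          (N (Bad A 4 l (Real.log X ^ D) c δ B X Y) X (X + Y) : ℝ) ≤ ε * Y / Real.log X ^ 4) ∧
      (∀ l : ℕ, 2 ≤ l → ∀ K : ℕ, 0 < K → ∃ κ : ℝ, 0 < κ ∧ ∃ c : ℝ, 0 < c ∧ ∃ D : ℕ,
        ∀ δ : ℝ, 0 < δ → ∃ B : ℕ, ∀ᶠ X : ℕ in atTop, ∀ Y : ℕ, (X : ℝ) ^ θ ≤ Y → 2 * Y ≤ X →
          ∀ χ : ℕ → Fin K, ∃ j : Fin K, κ * Y / Real.log X ^ 4 ≤
            N {m | Good {n | n ∈ Al H M n₀ r ∧ χ n = j} 4 l (Real.log X ^ D) c δ B X Y m}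
              X (X + Y)) := by
  have h0 : 0 ∈ H := by rcases hH with rfl | rfl <;> simp
  have hc : H.card = 4 := by rcases hH with rfl | rfl <;> rfl
  obtain ⟨r1, hr1, h1⟩ := Pool.Agent.TH977.PW.final_prog H ⟨0, h0⟩ M n₀ hM hcop
    (fun p hp => adm H hH p hp) (fun r => R H r) (fun r => Al H M n₀ r) 4 hc (fun r m _ hm => hm)
    (fun r _ => Eventually.of_forall (fun m h0 h1 h2 => ⟨h1, h0, h2⟩)) θ hθ hθ1
  obtain ⟨r2, hr2, h2⟩ := Pool.Agent.Y677.RSZ.narrow_prog H ⟨0, h0⟩ M n₀ hM hcop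
    (fun p hp => adm H hH p hp) (fun r => R H r) (fun r => Al H M n₀ r) 4 hc (fun r m _ hm => hm)
    (fun r _ => Eventually.of_forall (fun m h0 h1 h2 => ⟨h1, h0, h2⟩)) θ hθ hθ1
  refine ⟨max r1 r2, hr1.trans (le_max_left _ _), fun r hr => ?_⟩
  obtain ⟨hlow, hreg⟩ := h1 r ((le_max_left _ _).trans hr)
  obtain ⟨-, hnar⟩ := h2 r ((le_max_right _ _).trans hr)
  have hcomb := Pool.Agent.V7H96.NR.comb (R H r) 4 θ hreg hnar
  refine ⟨?_, hlow, hcomb, ?_⟩
  · intro n hn h hh q hq hdv
    have hn2 : 2 ≤ n := by simpa using (hn 0 h0).two_le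
    rw [(Nat.prime_dvd_prime_iff_eq hq (hn h hh)).1 hdv]
    exact Pool.Agent.TH977.PW.rpow_lt_of_le r n (n + h)
      (hr1.trans ((le_max_left _ _).trans hr)) hn2 (by omega)
  · intro l hl K hK
    obtain ⟨κ, hκ, hlow⟩ := hlow
    have hKr : (0 : ℝ) < K := by exact_mod_cast hK
    obtain ⟨c, hc0, D, hD⟩ := hcomb l hl (κ / (2 * K)) (by positivity)
    refine ⟨κ / (2 * K), by positivity, c, hc0, D, fun δ hδ => ?_⟩
    obtain ⟨B, hB⟩ := hD δ hδ
    refine ⟨B, ?_⟩
    have h := Pool.Agent.V7H96.NR.colour (R H r) (Al H M n₀ r) (fun m hm => hm.1) 4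
      (fun X Y => (X : ℝ) ^ θ ≤ Y ∧ 2 * Y ≤ X) κ hκ
      (by
        filter_upwards [hlow] with X hX Y hP
        exact hX Y hP.1 (by have := hP.2; omega))
      l D c δ B K hK (κ / (2 * K)) le_rfl
      (by
        filter_upwards [hB] with X hX Y hP A hA
        exact hX Y hP.1 hP.2 A hA)
    filter_upwards [h] with X hX Y h1 h2 χ
    exact hX Y ⟨h1, h2⟩ χ

end Pool.Agent.Results.MP_092512_nt.NarrowRegularColouringsH96
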