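import Pool.Agent.V7H96.ShortHL
import Pool.Agent.Y879.PR.Inst

set_option autoImplicit false

/-!
# The constants `E` and `2 E` of Hardy and Littlewood for quadruples with one prime member, and the
# law of the following quadruples

`qa = (0, 2, 6, 8)` and `qb = (0, 4, 6, 10)` are the two shapes. `PG h n r m` says that no `m + h j`
has a prime factor `≤ n ^ (1 / r)`; for `m ≤ n` the four numbers then have at most `r` prime factors,
and every prime quadruple with `m > n ^ (1 / r)` has this property. `PP h n r i A L` is the set of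
such `m` in `(A, A + L]` for which the member `m + h i` is PRIME.

`E = (27 / 2) C`, where `C` is the limit of the products of `p ^ 3 (p - 4) / (p - 1) ^ 4` over the
primes `3 < p < N`, as in the question. For every `ε` there is `r₀` such that for all `r ≥ r₀`, all
large `n`, all intervals `(A, A + L]` in `(0, n]` of length `L ≥ δ n` and each of the four
members, up to the factor `1 ± ε`,

  `#PP qa = E (e ^ (-γ) r) ^ 3 L / log ^ 4 n`,  `#PP qb = 2 E (e ^ (-γ) r) ^ 3 L / log ^ 4 n`.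

So the asymptotic formulas of the question, with the constants `E` and `2 E`, hold when one of the
primes is kept and the other three are replaced by numbers without prime factors `≤ n ^ (1 / r)`, each
of which changes the density by the factor `e ^ (-γ) r`, in the limit of large `r`. Moreover, for
both shapes the number `PNext` of good `l` in the residue class of `m` modulo `30` in
`(m, m + 30 T]`, `m` running over `PP h n r i A L`, has the Poisson distribution with mean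
`T V ≤ x₀`, where `V` is the product of `1 - 4 / p` over the primes `5 < p ≤ n ^ (1 / r)`.

Second part: for every `ε` and `θ > 0` there is `r₀` such that for `r ≥ r₀`, all large `X` and ALL
intervals `(B, B + L]` with `L ≥ X ^ θ`, wherever they begin, the number `Cnt` of the `n` in it for which
no `n + h` has a prime factor `≤ X ^ (1 / r)` is `E (e ^ (-γ) r) ^ 4 L / log ^ 4 X` for the first and
`2 E (e ^ (-γ) r) ^ 4 L / log ^ 4 X` for the second shape, up to the factor `1 ± ε`: the constants hold for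
almost primes in all short intervals.

`Cnt` is defined in `Pool/Agent/V7H96/ShortHL.lean`. `PG`, `PP`, `PNext`, `PV` are defined in `Pool/Agent/Y879/PR/Pat.lean`, `qa`, `qb` and `Poi` (the
Poisson weight of a finite set) in `Pool/Agent/Y879/PR/Inst.lean`.
-/

namespace Pool.Agent.Results.MP_092512_nt.PrimeMemberLawH96

open Finset Filter Topology
open Pool.Agent.V7H96.SH (Cnt)
open Pool.Agent.Y879.PR (PG PP PNext PV PW Poi qa qb)

/-- the constant of the semi-sifted formula: `E (e ^ (-γ) r) ^ 3` with `E = (27 / 2) C` -/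
noncomputable def Er (C : ℝ) (r : ℕ) : ℝ :=
  27 / 2 * C * (Real.exp (-Real.eulerMascheroniConstant) * r) ^ 3

/-- the constant of the sifted formula, all members almost primes -/
noncomputable def Fr (C : ℝ) (r : ℕ) : ℝ :=
  27 / 2 * C * (Real.exp (-Real.eulerMascheroniConstant) * r) ^ 4

lemma short (C : ℝ) (hC : 0 < C)
    (hlim : Tendsto (fun N : ℕ => ∏ p ∈ (Finset.range N).filter (fun p => p.Prime ∧ 3 < p),
      ((p : ℝ) ^ 3 * ((p : ℝ) - 4) / ((p : ℝ) - 1) ^ 4)) atTop (𝓝 C)) (θ ε : ℝ) (hθ : 0 < θ) (hε : 0 < ε)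
    (hε1 : ε ≤ 1) : ∃ r₀ : ℕ, 1 ≤ r₀ ∧ ∀ r : ℕ, r₀ ≤ r → ∀ᶠ X : ℕ in atTop,
      ∀ s : ℕ, s = ⌊(X : ℝ) ^ (1 / (r : ℝ))⌋₊ → ∀ B L : ℕ, (X : ℝ) ^ θ ≤ L →
        |(Cnt {0, 2, 6, 8} s B L : ℝ) * Real.log X ^ 4 - L * Fr C r| ≤ ε * (L * Fr C r) ∧
        |(Cnt {0, 4, 6, 10} s B L : ℝ) * Real.log X ^ 4 - L * (2 * Fr C r)| ≤
          ε * (L * (2 * Fr C r)) := by
  obtain ⟨r3, h3⟩ := Pool.Agent.V7H96.SH.count Pool.Agent.V7H96.SP.ok4a (by norm_num)
    ⟨6, by decide, by norm_num, by norm_num⟩ 1 (by decide) θ hθ (ε / 4) (by linarith) (by linarith)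
  obtain ⟨r4, h4⟩ := Pool.Agent.V7H96.SH.count Pool.Agent.V7H96.SP.ok4b (by norm_num)
    ⟨6, by decide, by norm_num, by norm_num⟩ 2 (by decide) θ hθ (ε / 4) (by linarith) (by linarith)
  refine ⟨max (max r3 r4) 1, le_max_right _ _, fun r hr => ?_⟩
  have hr34 : max r3 r4 ≤ r := (le_max_left _ _).trans hr
  have hr0 : 0 < r := (le_max_right _ 1).trans hr
  have hrr : (0 : ℝ) < r := by exact_mod_cast hr0
  have hV := Pool.Agent.V7H96.SH.V_lim 3 405 C _ Pool.Agent.V7H96.HL.Wz4 hlim r hr0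
  have hLp : 0 < 405 * C * (Real.exp (-Real.eulerMascheroniConstant) * r) ^ (3 + 1) := by
    positivity
  have a1 := Pool.Agent.V7H96.SH.assemble (3 + 1) _ _ 1 ε hLp (by norm_num) hε hε1 hV
  have a2 := Pool.Agent.V7H96.SH.assemble (3 + 1) _ _ 2 ε hLp (by norm_num) hε hε1 hV
  filter_upwards [h3 r ((le_max_left _ _).trans hr34), h4 r ((le_max_right _ _).trans hr34), a1, a2]
    with X hX3 hX4 b1 b2
  intro s hs B L hL
  have e3 := hX3 s hs B L hL
  have e4 := hX4 s hs B L hL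
  rw [hs] at e3 e4
  constructor
  · have e5 := b1 _ (L : ℝ) (Nat.cast_nonneg _) (by exact_mod_cast e3)
    have e : (L : ℝ) * (1 / 30 * (405 * C *
        (Real.exp (-Real.eulerMascheroniConstant) * r) ^ (3 + 1))) = L * Fr C r := by
      unfold Fr
      ring
    rw [e] at e5
    rw [hs]
    exact e5
  · have e5 := b2 _ (L : ℝ) (Nat.cast_nonneg _) (by exact_mod_cast e4)
    have e : (L : ℝ) * (2 / 30 * (405 * C *
        (Real.exp (-Real.eulerMascheroniConstant) * r) ^ (3 + 1))) = L * (2 * Fr C r) := by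
      unfold Fr
      ring
    rw [e] at e5
    rw [hs]
    exact e5

open Classical in
/-- **The constants `E` and `2 E` for quadruples with one prime member.** -/
theorem result : ∃ C : ℝ, 0 < C ∧
    Tendsto (fun N : ℕ => ∏ p ∈ (Finset.range N).filter (fun p => p.Prime ∧ 3 < p),
      ((p : ℝ) ^ 3 * ((p : ℝ) - 4) / ((p : ℝ) - 1) ^ 4)) atTop (𝓝 C) ∧
    (∀ ε δ x₀ : ℝ, 0 < ε → ε ≤ 1 → 0 < δ → δ ≤ 1 → ∃ r₀ : ℕ, 2 ≤ r₀ ∧ ∀ r : ℕ, r₀ ≤ r →
      ∀ᶠ n : ℕ in atTop,
        (∀ h : Fin 4 → ℕ, h = qa ∨ h = qb →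
          (∀ m : ℕ, m ≤ n → PG h n r m → ∀ i, (m + h i).primeFactorsList.length ≤ r) ∧
          (∀ m : ℕ, (n : ℝ) ^ (1 / (r : ℝ)) < m → (∀ i, (m + h i).Prime) → PG h n r m)) ∧
        ∀ (i : Fin 4) (A L : ℕ), δ * n ≤ L → A + L ≤ n →
          |((PP qa n r i A L).card : ℝ) * Real.log n ^ 4 - L * Er C r| ≤ ε * (L * Er C r) ∧
          |((PP qb n r i A L).card : ℝ) * Real.log n ^ 4 - L * (2 * Er C r)| ≤
            ε * (L * (2 * Er C r)) ∧
          ∀ h : Fin 4 → ℕ, h = qa ∨ h = qb → ∀ T : ℕ, T * PV 30 4 n r ≤ x₀ → ∀ B : Finset ℕ,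
            |(((PP h n r i A L).filter (fun m => PNext h 30 n r T m ∈ B)).card : ℝ) -
              (PP h n r i A L).card * Poi (T * PV 30 4 n r) B| ≤ ε * (PP h n r i A L).card) ∧
    ∀ θ ε : ℝ, 0 < θ → 0 < ε → ε ≤ 1 → ∃ r₀ : ℕ, 1 ≤ r₀ ∧ ∀ r : ℕ, r₀ ≤ r → ∀ᶠ X : ℕ in atTop,
      ∀ s : ℕ, s = ⌊(X : ℝ) ^ (1 / (r : ℝ))⌋₊ → ∀ B L : ℕ, (X : ℝ) ^ θ ≤ L →
        |(Cnt {0, 2, 6, 8} s B L : ℝ) * Real.log X ^ 4 - L * Fr C r| ≤ ε * (L * Fr C r) ∧
        |(Cnt {0, 4, 6, 10} s B L : ℝ) * Real.log X ^ 4 - L * (2 * Fr C r)| ≤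
          ε * (L * (2 * Fr C r)) := by
  obtain ⟨C, hC, hlim⟩ := Pool.Agent.V7H96.HL.lim4
  refine ⟨C, hC, hlim, ?_, ?_⟩
  swap
  · exact short C hC hlim
  intro ε δ x₀ hε hε1 hδ hδ1
  obtain ⟨ra, hra, ha⟩ := Pool.Agent.Y879.PR.pat_main Pool.Agent.Y879.PR.pat_qa (by decide) 1 δ
    one_pos hδ hδ1 x₀ (ε / 4) (by positivity) (by linarith)
  obtain ⟨rb, hrb, hb⟩ := Pool.Agent.Y879.PR.pat_main Pool.Agent.Y879.PR.pat_qb (by decide) 1 δ
    one_pos hδ hδ1 x₀ (ε / 4) (by positivity) (by linarith)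
  refine ⟨max ra rb, hra.trans (le_max_left _ _), fun r hr => ?_⟩
  have hr0 : 0 < r := by omega
  have hrr : (0 : ℝ) < r := by exact_mod_cast hr0
  obtain ⟨Na, hNa⟩ := ha r ((le_max_left _ _).trans hr)
  obtain ⟨Nb, hNb⟩ := hb r ((le_max_right _ _).trans hr)
  have hW := Pool.Agent.V7H96.HL.Wz_lim 3 405 C _ Pool.Agent.V7H96.HL.Wz4 hlim r hr0
  have hL : 0 < 405 * C * (Real.exp (-Real.eulerMascheroniConstant) * r) ^ 3 := by positivity
  have h1 := Pool.Agent.V7H96.HL.assemble 3 _ 1 ε hL one_pos hε hε1 r hW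
  have h2 := Pool.Agent.V7H96.HL.assemble 3 _ 2 ε hL two_pos hε hε1 r hW
  filter_upwards [h1, h2, eventually_ge_atTop Na, eventually_ge_atTop Nb] with n h1 h2 h3 h4
  obtain ⟨a1, a2, -, -, -, a3⟩ := hNa n h3
  obtain ⟨b1, b2, -, -, -, b3⟩ := hNb n h4
  refine ⟨?_, ?_⟩
  · rintro h (rfl | rfl)
    · exact ⟨a1, a2⟩
    · exact ⟨b1, b2⟩
  intro i A L hL hAL
  obtain ⟨c1, c2⟩ := a3 i n (by rw [Real.rpow_one]) A L hL hAL
  obtain ⟨d1, d2⟩ := b3 i n (by rw [Real.rpow_one]) A L hL hAL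
  have eW : PW 30 4 n r = Pool.Agent.V7H96.HL.Wz 4 ⌊(n : ℝ) ^ (1 / (r : ℝ))⌋₊ := rfl
  rw [eW, Finset.card_singleton] at c1
  have hc2 : ({7, 13} : Finset ℕ).card = 2 := by decide
  rw [eW, hc2] at d1
  push_cast at c1 d1
  refine ⟨?_, ?_, ?_⟩
  · have h5 := h1 ((PP qa n r i A L).card : ℝ) L (Nat.cast_nonneg _) c1
    have e : (L : ℝ) * (1 / 30 * (405 * C * (Real.exp (-Real.eulerMascheroniConstant) * r) ^ 3)) =
        L * Er C r := by
      unfold Er
      ring
    rw [e] at h5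
    exact h5
  · have h5 := h2 ((PP qb n r i A L).card : ℝ) L (Nat.cast_nonneg _) d1
    have e : (L : ℝ) * (2 / 30 * (405 * C * (Real.exp (-Real.eulerMascheroniConstant) * r) ^ 3)) =
        L * (2 * Er C r) := by
      unfold Er
      ring
    rw [e] at h5
    exact h5
  · rintro h (rfl | rfl) T hT B
    · refine (c2 T hT B).trans ?_
      exact mul_le_mul_of_nonneg_right (by linarith) (Nat.cast_nonneg _)
    · refine (d2 T hT B).trans ?_
      exact mul_le_mul_of_nonneg_right (by linarith) (Nat.cast_nonneg _)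

end Pool.Agent.Results.MP_092512_nt.PrimeMemberLawH96
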