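import Pool.Agent.V7H10.Tup

/-!
# The exact local structure of the almost prime quadruples, with a prime at a prescribed place

Let `D` be `{0, 2, 6, 8}` or `{0, 4, 6, 10}`, and let `r` be a residue modulo 30 such that all `r + d` (`d ∈ D`) are
coprime to 30: `r = 11` for the first shape, `r = 7, 13` for the second, and all
quadruples of integers without prime factors `≤ 5` lie in these classes. Call `m` a member if no `30 m + r + d` has a prime
factor `≤ y`. For a finite set `H` of shifts, `0 ∈ H`, let `V_H` be the sieve density of the `m` for which all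
`m + h` (`h ∈ H`) are members, `V = V_{0}`, and `W` the product of `1 - 1 / p` over the primes `p ≤ y`. For ALL
sets `H` with at most `K` elements, all `h ∈ H`, all `d ∈ D` and all `L ≥ max H` with `L V ≤ x₀`, in the intervals
`(Z, Z + Y]` with `δ X ≤ Z, Y` and `Z + Y ≤ X`, `X ≥ y ^ s`: the number of the `m` for which `30 (m + h) + r + d` is
a PRIME and for which the members in `[m, m + L]` are exactly the `m + H`, is `Y (V_H / W) exp (- L V) / log X`, up
to the factor `1 ± ε`. Without the prime there is the same formula, `Y V_H exp (- L V)`, in ALL intervals of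
length `Y ≥ y ^ s`.
-/

set_option autoImplicit false

open Finset

namespace Pool.Agent.Results.MP_092512_nt.QuadrupleBlocksH10

/-- `p` divides one of the numbers `30 m + r + d`, `d ∈ D` -/
def Divides (D : Finset ℕ) (r p m : ℕ) : Prop := ∃ d ∈ D, p ∣ 30 * m + r + d

/-- no `30 m + r + d`, `d ∈ D`, has a prime factor `≤ y` -/
def Member (D : Finset ℕ) (r y m : ℕ) : Prop := ∀ p : ℕ, p.Prime → p ≤ y → ¬ Divides D r p m

open Classical in
/-- the number of the residues `m` modulo `p` for which `p` divides one of the numbers `30 (m + h) + r + d`,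
`h ∈ H`, `d ∈ D` -/
noncomputable def om (D : Finset ℕ) (r : ℕ) (H : Finset ℕ) (p : ℕ) : ℕ :=
  ((range p).filter (fun m => ∃ h ∈ H, Divides D r p (m + h))).card

/-- the density: the product of `1 - om(p) / p` over the primes `p ≤ y` -/
noncomputable def V (D : Finset ℕ) (r : ℕ) (H : Finset ℕ) (y : ℕ) : ℝ :=
  ∏ p ∈ (Icc 1 y).filter Nat.Prime, (1 - (om D r H p : ℝ) / p)

/-- the product of `1 - 1 / p` over the primes `p ≤ y` -/
noncomputable def W (y : ℕ) : ℝ := ∏ p ∈ (Icc 1 y).filter Nat.Prime, (1 - 1 / (p : ℝ))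

/-- the number of the `m` in `(Z, Z + Y]` for which the members in `[m, m + L]` are exactly the integers `m + x`
with `x ∈ H` -/
noncomputable def blocks (D : Finset ℕ) (r : ℕ) (H : Finset ℕ) (L y Z Y : ℕ) : ℕ :=
  Set.ncard {m : ℕ | Z < m ∧ m ≤ Z + Y ∧ ∀ x ≤ L, (Member D r y (m + x) ↔ x ∈ H)}

/-- the number of the `m` in `(Z, Z + Y]` for which `30 (m + h) + r + d` is prime and the members in
`[m, m + L]` are exactly the integers `m + x` with `x ∈ H` -/
noncomputable def primeBlocks (D : Finset ℕ) (r d h : ℕ) (H : Finset ℕ) (L y Z Y : ℕ) : ℕ :=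
  Set.ncard {m : ℕ | Z < m ∧ m ≤ Z + Y ∧ (30 * (m + h) + r + d).Prime ∧
    ∀ x ≤ L, (Member D r y (m + x) ↔ x ∈ H)}

/-- **The exact local structure, with a prime at a prescribed place.** -/
theorem result (D : Finset ℕ) (hD : D = {0, 2, 6, 8} ∨ D = {0, 4, 6, 10}) :
    -- the quadruples of integers without prime factors `≤ 5` lie in the classes considered
    (∀ n : ℕ, (∀ d ∈ D, ∀ p : ℕ, p.Prime → p ≤ 5 → ¬ p ∣ n + d) →
      ∃ m r : ℕ, n = 30 * m + r ∧ r < 30 ∧ ∀ d ∈ D, Nat.Coprime 30 (r + d)) ∧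
    ∀ r : ℕ, r < 30 → (∀ d ∈ D, Nat.Coprime 30 (r + d)) →
    -- the prime quadruples give members
    (∀ y m : ℕ, (∀ d ∈ D, (30 * m + r + d).Prime) → y < 30 * m + r → Member D r y m) ∧
    -- the members give almost primes
    (∀ y t m : ℕ, Member D r y m → ∀ d ∈ D, 30 * m + r + d ≤ y ^ t →
      (30 * m + r + d).primeFactorsList.length ≤ t) ∧
    -- the exact blocks, in all intervals
    (∀ (K : ℕ) (x₀ ε : ℝ), 0 < ε → ∃ s y₀ : ℕ, ∀ y : ℕ, y₀ ≤ y → ∀ Z Y : ℕ, y ^ s ≤ Y →
      ∀ H : Finset ℕ, H.card ≤ K → 0 ∈ H → ∀ L : ℕ, (∀ x ∈ H, x ≤ L) → L * V D r {0} y ≤ x₀ →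
        |(blocks D r H L y Z Y : ℝ) - Y * V D r H y * Real.exp (-(L * V D r {0} y))| ≤
          ε * (Y * V D r H y * Real.exp (-(L * V D r {0} y)))) ∧
    -- the exact blocks with a prime at a prescribed place
    (∀ (K : ℕ) (x₀ ε δ : ℝ), 0 < ε → 0 < δ → δ ≤ 1 → ∃ s y₀ : ℕ, ∀ y : ℕ, y₀ ≤ y → ∀ X : ℕ, y ^ s ≤ X →
      ∀ H : Finset ℕ, H.card ≤ K → 0 ∈ H → ∀ h ∈ H, ∀ d ∈ D, ∀ L : ℕ, (∀ x ∈ H, x ≤ L) →
      L * V D r {0} y ≤ x₀ → ∀ Z Y : ℕ, δ * X ≤ Z → δ * X ≤ Y → Z + Y ≤ X →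
        |(primeBlocks D r d h H L y Z Y : ℝ) * Real.log X -
          Y * (V D r H y / W y) * Real.exp (-(L * V D r {0} y))| ≤
          ε * (Y * (V D r H y / W y) * Real.exp (-(L * V D r {0} y)))) := by
  refine ⟨?_, ?_⟩
  · intro n hn
    refine ⟨n / 30, n % 30, by omega, Nat.mod_lt _ (by norm_num), ?_⟩
    intro d hd
    rw [Nat.coprime_iff_gcd_eq_one]
    by_contra hcon
    obtain ⟨p, hp, hpd⟩ := Nat.exists_prime_and_dvd hcon
    have h1 : p ∣ 30 := hpd.trans (Nat.gcd_dvd_left _ _)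
    have h2 : p ∣ n % 30 + d := hpd.trans (Nat.gcd_dvd_right _ _)
    have h3 : p ∣ n + d := by
      have h4 : n + d = 30 * (n / 30) + (n % 30 + d) := by omega
      rw [h4]
      exact dvd_add (h1.mul_right _) h2
    exact hn d hd p hp ((Pool.Agent.V7H10.Tp.pr30 p hp).1 h1) h3
  · intro r hr hc
    obtain ⟨h, H⟩ := Pool.Agent.V7H10.Tp.shape4 D hD r hr hc
    refine ⟨?_, ?_, ?_, ?_⟩
    · rintro y m h1 hy p hp hpy ⟨d, hd, hpd⟩
      have := (Nat.prime_dvd_prime_iff_eq hp (h1 d hd)).1 hpd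
      omega
    · intro y t m hm d hd hdt
      have hpos : 0 < 30 * m + r + d := by
        have h1 := hc d hd
        rcases Nat.eq_zero_or_pos (r + d) with h2 | h2
        · rw [h2] at h1
          norm_num at h1
        · omega
      exact Pool.Agent.V7H10.BG.few y t _ hpos hdt (fun p hp hpy hpd => hm p hp hpy ⟨d, hd, hpd⟩)
    · intro K x₀ ε hε
      exact Pool.Agent.V7H10.Tp.short H K x₀ ε hε
    · intro K x₀ ε δ hε hδ hδ1
      have hall : ∀ d ∈ D, ∃ s y₀ : ℕ, ∀ y : ℕ, y₀ ≤ y → ∀ X : ℕ, y ^ s ≤ X →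
          ∀ H : Finset ℕ, H.card ≤ K → 0 ∈ H → ∀ h ∈ H, ∀ L : ℕ, (∀ x ∈ H, x ≤ L) →
          L * V D r {0} y ≤ x₀ → ∀ Z Y : ℕ, δ * X ≤ Z → δ * X ≤ Y → Z + Y ≤ X →
            |(primeBlocks D r d h H L y Z Y : ℝ) * Real.log X -
              Y * (V D r H y / W y) * Real.exp (-(L * V D r {0} y))| ≤
              ε * (Y * (V D r H y / W y) * Real.exp (-(L * V D r {0} y))) := by
        intro d hd
        obtain ⟨s, y0, hmain⟩ := Pool.Agent.V7H10.Tp.withPrime H d hd K x₀ ε δ hε hδ hδ1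
        refine ⟨s, y0, ?_⟩
        intro y hy X hX H hH h0 h hh L hHL hL Z Y hZ hY hZY
        have h1 := hmain y hy X hX H hH h0 h hh L hHL hL Z Y hZ hY hZY
        have e : Pool.Agent.V7H10.BG.pblocks (Pool.Agent.V7H10.Tp.Dv D r) 30 (30 * h + (r + d)) H L y Z Y =
            primeBlocks D r d h H L y Z Y := by
          unfold Pool.Agent.V7H10.BG.pblocks primeBlocks
          congr 1
          ext m
          simp only [Set.mem_ofPred_eq]
          rw [show 30 * m + (30 * h + (r + d)) = 30 * (m + h) + r + d by ring]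
          exact Iff.rfl
        rw [e] at h1
        exact h1
      choose! s y0 hsy using hall
      refine ⟨∑ d ∈ D, s d, ∑ d ∈ D, y0 d + 1, ?_⟩
      intro y hy X hX H hH h0 h hh d hd L hHL hL Z Y hZ hY hZY
      have h1 : s d ≤ ∑ d ∈ D, s d := Finset.single_le_sum (f := s) (fun _ _ => Nat.zero_le _) hd
      have h2 : y0 d ≤ ∑ d ∈ D, y0 d := Finset.single_le_sum (f := y0) (fun _ _ => Nat.zero_le _) hd
      exact hsy d hd y (by omega) X ((Nat.pow_le_pow_right (by omega) h1).trans hX) H hH h0 h hh L hHL hL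
        Z Y hZ hY hZY

end Pool.Agent.Results.MP_092512_nt.QuadrupleBlocksH10
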