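import Pool.Agent.V7H10.Tup

/-!
# Residues of consecutive almost prime quadruples

Let `D` be `{0, 2, 6, 8}` or `{0, 4, 6, 10}`, and let `r` be a residue modulo 30 such that all `r + d` (`d ∈ D`) are
coprime to 30: `r = 11` for the first shape, `r = 7, 13` for the second, and all
quadruples of integers without prime factors `≤ 5` lie in these classes. Call `m` a member if no `30 m + r + d` has a prime
factor `≤ z`. Let `l` be a prime number. For every `k` and `ε > 0` there are `K` and `z₀` such that for all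
`z ≥ z₀` and ALL intervals `(Z, Z + Y]` with `Y ≥ z ^ K`, the patterns of residues modulo `l` of `k + 1`
consecutive members `m`, with arbitrary classes among the `c(l)` classes `b` for which `l` divides no
`30 b + r + d`, all occur with the same frequency `c(l) ^ (-k-1)`, up to `ε`. (For `l = 2` these are the residues
modulo 60, or modulo 4, of the quadruples; for `l > 5` their residues modulo `l`.)
-/

set_option autoImplicit false

open Finset

namespace Pool.Agent.Results.MP_092512_nt.ResiduePatternsH10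

/-- `p` divides one of the numbers `30 m + r + d`, `d ∈ D` -/
def Divides (D : Finset ℕ) (r p m : ℕ) : Prop := ∃ d ∈ D, p ∣ 30 * m + r + d

/-- no `30 m + r + d`, `d ∈ D`, has a prime factor `≤ z` -/
def Member (D : Finset ℕ) (r z m : ℕ) : Prop := ∀ p : ℕ, p.Prime → p ≤ z → ¬ Divides D r p m

/-- `n 0 < n 1 < … < n k` are consecutive elements of `S`. -/
def Consecutive (S : ℕ → Prop) (k : ℕ) (n : ℕ → ℕ) : Prop :=
  (∀ i ≤ k, S (n i)) ∧ ∀ i < k, n i < n (i + 1) ∧ ∀ m, n i < m → m < n (i + 1) → ¬ S m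

open Classical in
/-- The number of the members in `(Z, Z + Y]`. -/
noncomputable def total (D : Finset ℕ) (r z Z Y : ℕ) : ℕ := ((Ioc Z (Z + Y)).filter (Member D r z)).card

open Classical in
/-- The number of the members `g` in `(Z, Z + Y]` such that `g` and the `k` next members are congruent to
`a 0, a 1, …, a k` modulo `l`. -/
noncomputable def count (D : Finset ℕ) (r z l k : ℕ) (a : ℕ → ℕ) (Z Y : ℕ) : ℕ :=
  ((Ioc Z (Z + Y)).filter (fun g => ∃ n : ℕ → ℕ, n 0 = g ∧ Consecutive (Member D r z) k n ∧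
    ∀ i ≤ k, n i % l = a i)).card

/-- `b` is one of the possible residues modulo `l` -/
def Allowed (D : Finset ℕ) (r l b : ℕ) : Prop := b < l ∧ ¬ Divides D r l b

open Classical in
/-- The number of the possible residues modulo `l`. -/
noncomputable def classes (D : Finset ℕ) (r l : ℕ) : ℕ := ((range l).filter (Allowed D r l)).card

open Classical in
lemma main (D : Finset ℕ) (hD : D = {0, 2, 6, 8} ∨ D = {0, 4, 6, 10}) (r : ℕ) (hr : r < 30)
    (hc : ∀ d ∈ D, Nat.Coprime 30 (r + d)) (l k : ℕ) (hl : l.Prime) (ε : ℝ) (hε : 0 < ε) :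
    ∃ K z₀ : ℕ, ∀ z : ℕ, z₀ ≤ z → ∀ Z Y : ℕ, z ^ K ≤ Y →
    0 < total D r z Z Y ∧ ∀ a : ℕ → ℕ, (∀ i ≤ k, Allowed D r l (a i)) →
      |(count D r z l k a Z Y : ℝ) - total D r z Z Y / (classes D r l : ℝ) ^ (k + 1)| ≤
        ε * total D r z Z Y := by
  obtain ⟨h, H⟩ := Pool.Agent.V7H10.Tp.shape4 D hD r hr hc
  exact Pool.Agent.V7H10.Tp.residues H l k hl ε hε

open Classical in
/-- **Residue patterns of consecutive almost prime quadruples.** -/
theorem result (D : Finset ℕ) (hD : D = {0, 2, 6, 8} ∨ D = {0, 4, 6, 10}) :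
    -- the quadruples of integers without prime factors `≤ 5` lie in the classes considered
    (∀ n : ℕ, (∀ d ∈ D, ∀ p : ℕ, p.Prime → p ≤ 5 → ¬ p ∣ n + d) →
      ∃ m r : ℕ, n = 30 * m + r ∧ r < 30 ∧ ∀ d ∈ D, Nat.Coprime 30 (r + d)) ∧
    ∀ r : ℕ, r < 30 → (∀ d ∈ D, Nat.Coprime 30 (r + d)) →
    -- the prime quadruples give members
    (∀ z m : ℕ, (∀ d ∈ D, (30 * m + r + d).Prime) → z < 30 * m + r → Member D r z m) ∧
    -- the members give almost primes
    (∀ z t m : ℕ, Member D r z m → ∀ d ∈ D, 30 * m + r + d ≤ z ^ t →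
      (30 * m + r + d).primeFactorsList.length ≤ t) ∧
    -- all residue patterns modulo a prime are equally frequent, in all intervals
    (∀ (l k : ℕ) (ε : ℝ), l.Prime → 0 < ε → ∃ K z₀ : ℕ, ∀ z : ℕ, z₀ ≤ z → ∀ Z Y : ℕ, z ^ K ≤ Y →
      0 < total D r z Z Y ∧ ∀ a : ℕ → ℕ, (∀ i ≤ k, Allowed D r l (a i)) →
        |(count D r z l k a Z Y : ℝ) - total D r z Z Y / (classes D r l : ℝ) ^ (k + 1)| ≤
          ε * total D r z Z Y) ∧
    -- the proportion, among the members `≡ a 0`, of those whose successor is `≡ a 1`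
    (∀ (l : ℕ) (ε : ℝ), l.Prime → 0 < ε → ∃ K z₀ : ℕ, ∀ z : ℕ, z₀ ≤ z → ∀ Z Y : ℕ, z ^ K ≤ Y →
      ∀ a : ℕ → ℕ, Allowed D r l (a 0) → Allowed D r l (a 1) →
        0 < count D r z l 0 a Z Y ∧
          |(count D r z l 1 a Z Y : ℝ) / count D r z l 0 a Z Y - 1 / classes D r l| ≤ ε) := by
  refine ⟨?_, ?_⟩
  · intro n hn
    refine ⟨n / 30, n % 30, by omega, Nat.mod_lt _ (by norm_num), ?_⟩
    intro d hd
    rw [Nat.coprime_iff_gcd_eq_one]
    by_contra hcon
    obtain ⟨p, hp, hpd⟩ := Nat.exists_prime_and_dvd hcon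
    have h1 : p ∣ 30 := hpd.trans (Nat.gcd_dvd_left _ _)
    have h2 : p ∣ n % 30 + d := hpd.trans (Nat.gcd_dvd_right _ _)
    have h3 : p ∣ n + d := by
      have h4 : n + d = 30 * (n / 30) + (n % 30 + d) := by omega
      rw [h4]
      exact dvd_add (h1.mul_right _) h2
    exact hn d hd p hp ((Pool.Agent.V7H10.Tp.pr30 p hp).1 h1) h3
  · intro r hr hc
    refine ⟨?_, ?_, fun l k ε hl hε => main D hD r hr hc l k hl ε hε, ?_⟩
    · rintro z m h1 hz p hp hpz ⟨d, hd, hpd⟩
      have := (Nat.prime_dvd_prime_iff_eq hp (h1 d hd)).1 hpd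
      omega
    · intro z t m hm d hd hdt
      have hpos : 0 < 30 * m + r + d := by
        have h1 := hc d hd
        rcases Nat.eq_zero_or_pos (r + d) with h2 | h2
        · rw [h2] at h1
          norm_num at h1
        · omega
      exact Pool.Agent.V7H10.BG.few z t _ hpos hdt (fun p hp hpz hpd => hm p hp hpz ⟨d, hd, hpd⟩)
    · intro l ε hl hε
      by_cases hA : classes D r l = 0
      · refine ⟨0, 0, ?_⟩
        intro z _ Z Y _ a ha0 _
        exfalso
        unfold classes at hA
        rw [Finset.card_eq_zero] at hA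
        have : a 0 ∈ (∅ : Finset ℕ) := by
          rw [← hA, mem_filter, mem_range]
          exact ⟨ha0.1, ha0⟩
        simp at this
      · obtain ⟨e, he, hrat⟩ := Pool.Agent.V7H10.Rs.ratio (classes D r l) (by omega) ε hε
        obtain ⟨K0, z0, h0⟩ := main D hD r hr hc l 0 hl e he
        obtain ⟨K1, z1, h1⟩ := main D hD r hr hc l 1 hl e he
        refine ⟨K0 + K1, z0 + z1 + 1, ?_⟩
        intro z hz Z Y hY a ha0 ha1
        have hz1 : 1 ≤ z := by omega
        obtain ⟨g1, g2⟩ := h0 z (by omega) Z Y ((Nat.pow_le_pow_right hz1 (by omega)).trans hY)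
        obtain ⟨_, g3⟩ := h1 z (by omega) Z Y ((Nat.pow_le_pow_right hz1 (by omega)).trans hY)
        have h3 := g2 a (by
          intro i hi
          have : i = 0 := by omega
          rw [this]
          exact ha0)
        have h4 := g3 a (by
          intro i hi
          have : i = 0 ∨ i = 1 := by omega
          rcases this with rfl | rfl
          · exact ha0
          · exact ha1)
        obtain ⟨r1, r2⟩ := hrat (total D r z Z Y) (count D r z l 0 a Z Y) (count D r z l 1 a Z Y)
          (by exact_mod_cast g1) h3 h4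
        exact ⟨by exact_mod_cast r1, r2⟩

end Pool.Agent.Results.MP_092512_nt.ResiduePatternsH10
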